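import Mathlib

/-!
# MP_037a8f_lc, Q1: the WPL tree heuristic is not `O(1)`-static-competitive

Start with the zigzag path `1, n, 2, n-1, ...` and access its keys from top to bottom, again and
again.  At every access the accessed key has the same counter as its parent, and in a zigzag path
a rotation over the parent moves only these two keys, so no rotation is ever made.
-/

namespace Pool.Agent.Results.MP_037a8f_lc.WPLNotStaticCompetitive

/-- Binary trees with keys in `ℕ`. -/
inductive Tree : Type
  | leaf : Tree
  | node : Tree → ℕ → Tree → Tree

namespace Tree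

/-- The keys in symmetric order. -/
def toList : Tree → List ℕ
  | leaf => []
  | node l k r => toList l ++ k :: toList r

/-- `t` stores the keys `1, ..., n` in symmetric order. -/
def IsBST (n : ℕ) (t : Tree) : Prop := t.toList = List.range' 1 n

/-- The depth of the key `x` (the root has depth `0`), by the usual search. -/
def depth (x : ℕ) : Tree → ℕ
  | leaf => 0
  | node l k r => if x < k then depth x l + 1 else if k < x then depth x r + 1 else 0

/-- The key at the root. -/
def rootKey : Tree → Option ℕ
  | leaf => none
  | node _ k _ => some k

/-- Right rotation at the root: the left child moves up. -/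
def rotR : Tree → Tree
  | node (node a y b) k r => node a y (node b k r)
  | t => t

/-- Left rotation at the root: the right child moves up. -/
def rotL : Tree → Tree
  | node l k (node a y b) => node (node l k a) y b
  | t => t

/-- Rotation of the key `x` over its parent; nothing changes when `x` is the root. -/
def rotUp (x : ℕ) : Tree → Tree
  | leaf => leaf
  | node l k r =>
    if x < k then
      (if l.rootKey = some x then rotR (node l k r) else node (rotUp x l) k r)
    else if k < x then
      (if r.rootKey = some x then rotL (node l k r) else node l k (rotUp x r))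
    else node l k r

end Tree

open Tree

/-- Weighted path length of the tree `t` on keys `1, ..., n` with the counters `f`. -/
def WPL (n : ℕ) (f : ℕ → ℕ) (t : Tree) : ℕ := ∑ i ∈ Finset.Icc 1 n, f i * (1 + depth i t)

/-- Rotate `x` over its current parent as long as this strictly decreases the weighted path
length; returns the final tree and the number of rotations. -/
def adjust (n : ℕ) (f : ℕ → ℕ) (x : ℕ) (t : Tree) : Tree × ℕ :=
  if WPL n f (rotUp x t) < WPL n f t then
    ((adjust n f x (rotUp x t)).1, (adjust n f x (rotUp x t)).2 + 1)
  else (t, 0)
termination_by WPL n f t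

/-- State of the algorithm: the tree, the counters, the cost paid so far. -/
structure State where
  /-- current tree -/
  tree : Tree
  /-- counters -/
  cnt : ℕ → ℕ
  /-- total cost -/
  cost : ℕ

/-- Serve one access to `x`: pay `1 + depth`, update the counter, rotate (each rotation
costs `1`). -/
def step (n : ℕ) (s : State) (x : ℕ) : State :=
  ⟨(adjust n (Function.update s.cnt x (s.cnt x + 1)) x s.tree).1,
   Function.update s.cnt x (s.cnt x + 1),
   s.cost + (1 + depth x s.tree) +
    (adjust n (Function.update s.cnt x (s.cnt x + 1)) x s.tree).2⟩

/-- Total cost of the WPL tree started at `T₀` (all counters `0`) on the sequence `σ`. -/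
def wplCost (n : ℕ) (T₀ : Tree) (σ : List ℕ) : ℕ :=
  (σ.foldl (step n) ⟨T₀, fun _ => 0, 0⟩).cost

/-- Cost of `σ` in the fixed tree `S`. -/
def staticCost (S : Tree) (σ : List ℕ) : ℕ := (σ.map fun x => 1 + depth x S).sum

/-- The optimal static cost over all search trees on `1, ..., n`. -/
noncomputable def optStatic (n : ℕ) (σ : List ℕ) : ℕ :=
  sInf {c | ∃ S : Tree, IsBST n S ∧ c = staticCost S σ}

/-! ### The zigzag path -/

/-- The zigzag path on the keys `lo, ..., lo + m - 1`; the root is the smallest key for `true` and
the largest key for `false`. -/
def zz : Bool → ℕ → ℕ → Tree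
  | _, _, 0 => leaf
  | true, lo, m + 1 => node leaf lo (zz false (lo + 1) m)
  | false, lo, m + 1 => node (zz true lo m) (lo + m) leaf

/-- Its keys from top to bottom. -/
def path : Bool → ℕ → ℕ → List ℕ
  | _, _, 0 => []
  | true, lo, m + 1 => lo :: path false (lo + 1) m
  | false, lo, m + 1 => (lo + m) :: path true lo m

theorem zz_toList : ∀ (m : ℕ) (b : Bool) (lo : ℕ), (zz b lo m).toList = List.range' lo m := by
  intro m
  induction m with
  | zero => intro b lo; cases b <;> rfl
  | succ m ih =>
    intro b lo
    cases b with
    | true => simp [zz, toList, ih, List.range'_succ]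
    | false => simp [zz, toList, ih, List.range'_1_concat]

theorem mem_path : ∀ (m : ℕ) (b : Bool) (lo x : ℕ), x ∈ path b lo m ↔ lo ≤ x ∧ x < lo + m := by
  intro m
  induction m with
  | zero => intro b lo x; cases b <;> simp [path] <;> omega
  | succ m ih =>
    intro b lo x
    cases b with
    | true => simp only [path, List.mem_cons, ih]; omega
    | false => simp only [path, List.mem_cons, ih]; omega

theorem path_nodup : ∀ (m : ℕ) (b : Bool) (lo : ℕ), (path b lo m).Nodup := by
  intro m
  induction m with
  | zero => intro b lo; cases b <;> simp [path]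
  | succ m ih =>
    intro b lo
    cases b with
    | true =>
      simp only [path, List.nodup_cons]
      exact ⟨fun h => by rw [mem_path] at h; omega, ih _ _⟩
    | false =>
      simp only [path, List.nodup_cons]
      exact ⟨fun h => by rw [mem_path] at h; omega, ih _ _⟩

theorem path_length : ∀ (m : ℕ) (b : Bool) (lo : ℕ), (path b lo m).length = m := by
  intro m
  induction m with
  | zero => intro b lo; cases b <;> rfl
  | succ m ih => intro b lo; cases b <;> simp [path, ih]

theorem path_cost : ∀ (m : ℕ) (b : Bool) (lo : ℕ),
    2 * ((path b lo m).map fun x => 1 + depth x (zz b lo m)).sum = m * (m + 1) := by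
  intro m
  induction m with
  | zero => intro b lo; cases b <;> simp [path]
  | succ m ih =>
    intro b lo
    cases b with
    | true =>
      have h : ((path false (lo + 1) m).map fun x => 1 + depth x (zz true lo (m + 1))).sum
          = ((path false (lo + 1) m).map fun x => 1 + depth x (zz false (lo + 1) m)).sum + m := by
        have h1 : (path false (lo + 1) m).map (fun x => 1 + depth x (zz true lo (m + 1)))
            = (path false (lo + 1) m).map
              (fun x => (1 + depth x (zz false (lo + 1) m)) + 1) := by
          apply List.map_congr_left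
          intro x hx
          rw [mem_path] at hx
          simp only [zz, depth]
          rw [if_neg (by omega), if_pos (by omega)]
          omega
        rw [h1, List.sum_map_add]
        simp [path_length]
      have h2 : depth lo (zz true lo (m + 1)) = 0 := by simp [zz, depth]
      have h3 := ih false (lo + 1)
      simp only [path, List.map_cons, List.sum_cons, h, h2]
      nlinarith [h3]
    | false =>
      have h : ((path true lo m).map fun x => 1 + depth x (zz false lo (m + 1))).sum
          = ((path true lo m).map fun x => 1 + depth x (zz true lo m)).sum + m := by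
        have h1 : (path true lo m).map (fun x => 1 + depth x (zz false lo (m + 1)))
            = (path true lo m).map
              (fun x => (1 + depth x (zz true lo m)) + 1) := by
          apply List.map_congr_left
          intro x hx
          rw [mem_path] at hx
          simp only [zz, depth]
          rw [if_pos (by omega)]
          omega
        rw [h1, List.sum_map_add]
        simp [path_length]
      have h2 : depth (lo + m) (zz false lo (m + 1)) = 0 := by simp [zz, depth]
      have h3 := ih true lo
      simp only [path, List.map_cons, List.sum_cons, h, h2]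
      nlinarith [h3]

theorem rootKey_zz (m : ℕ) (b : Bool) (lo : ℕ) : (zz b lo m).rootKey = (path b lo m).head? := by
  cases m with
  | zero => cases b <;> rfl
  | succ m => cases b <;> rfl

/-- Effect of a rotation in the zigzag path on the depths: only `x` moves up, by one, and its
parent `p` moves down. -/
theorem rot_depth : ∀ (m : ℕ) (b : Bool) (lo : ℕ) (L₁ : List ℕ) (p x : ℕ) (L₃ : List ℕ),
    path b lo m = L₁ ++ p :: x :: L₃ →
    (∀ k, lo ≤ k → k < lo + m → k ≠ x →
      depth k (zz b lo m) ≤ depth k (rotUp x (zz b lo m))) ∧
    depth x (zz b lo m) ≤ depth x (rotUp x (zz b lo m)) + 1 ∧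
    depth p (zz b lo m) + 1 ≤ depth p (rotUp x (zz b lo m)) := by
  intro m
  induction m with
  | zero =>
    intro b lo L₁ p x L₃ h
    have := congrArg List.length h
    rw [path_length] at this
    simp at this
  | succ m ih =>
    intro b lo L₁ p x L₃ h
    have hx : x ∈ path b lo (m + 1) := by rw [h]; simp
    have hp : p ∈ path b lo (m + 1) := by rw [h]; simp
    have hnd := path_nodup (m + 1) b lo
    cases L₁ with
    | nil =>
      cases b with
      | true =>
        simp only [path, List.nil_append, List.cons.injEq] at h
        obtain ⟨rfl, h⟩ := h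
        cases m with
        | zero => simp [path] at h
        | succ m =>
          simp only [path, List.cons.injEq] at h
          obtain ⟨rfl, -⟩ := h
          have hrot : rotUp (lo + 1 + m) (zz true lo (m + 1 + 1)) =
              node (node leaf lo (zz true (lo + 1) m)) (lo + 1 + m) leaf := by
            simp only [zz, rotUp, rootKey, rotL]
            rw [if_neg (by omega), if_pos (by omega)]
            simp
          rw [hrot]
          simp only [zz, depth]
          refine ⟨?_, ?_, ?_⟩
          · intro k hk1 hk2 hk3
            split_ifs <;> omega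
          · split_ifs <;> omega
          · split_ifs <;> omega
      | false =>
        simp only [path, List.nil_append, List.cons.injEq] at h
        obtain ⟨rfl, h⟩ := h
        cases m with
        | zero => simp [path] at h
        | succ m =>
          simp only [path, List.cons.injEq] at h
          obtain ⟨rfl, -⟩ := h
          have hrot : rotUp lo (zz false lo (m + 1 + 1)) =
              node leaf lo (node (zz false (lo + 1) m) (lo + (m + 1)) leaf) := by
            simp only [zz, rotUp, rootKey, rotR]
            rw [if_pos (by omega)]
            simp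
          rw [hrot]
          simp only [zz, depth]
          refine ⟨?_, ?_, ?_⟩
          · intro k hk1 hk2 hk3
            split_ifs <;> omega
          · split_ifs <;> omega
          · split_ifs <;> omega
    | cons y L₁ =>
      cases b with
      | true =>
        simp only [path, List.cons_append, List.cons.injEq] at h
        obtain ⟨rfl, h⟩ := h
        have hx' : x ∈ path false (lo + 1) m := by rw [h]; simp
        have hp' : p ∈ path false (lo + 1) m := by rw [h]; simp
        have hnd' := path_nodup m false (lo + 1)
        have hroot : (zz false (lo + 1) m).rootKey ≠ some x := by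
          rw [rootKey_zz, h]
          rw [h] at hnd'
          cases L₁ with
          | nil => simp at hnd' ⊢; tauto
          | cons z L₁ => simp at hnd' ⊢; intro hz; exact hnd'.1.2.2.1 hz
        rw [mem_path] at hx' hp'
        obtain ⟨h1, h2, h3⟩ := ih false (lo + 1) L₁ p x L₃ h
        have hrot : rotUp x (zz true lo (m + 1)) =
            node leaf lo (rotUp x (zz false (lo + 1) m)) := by
          simp only [zz, rotUp]
          rw [if_neg (by omega), if_pos (by omega), if_neg hroot]
        rw [hrot]
        simp only [zz, depth]
        refine ⟨?_, ?_, ?_⟩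
        · intro k hk1 hk2 hk3
          have h1k := h1 k
          split_ifs <;> omega
        · rw [if_neg (by omega), if_pos (by omega), if_neg (by omega), if_pos (by omega)]
          omega
        · rw [if_neg (by omega), if_pos (by omega), if_neg (by omega), if_pos (by omega)]
          omega
      | false =>
        simp only [path, List.cons_append, List.cons.injEq] at h
        obtain ⟨rfl, h⟩ := h
        have hx' : x ∈ path true lo m := by rw [h]; simp
        have hp' : p ∈ path true lo m := by rw [h]; simp
        have hnd' := path_nodup m true lo
        have hroot : (zz true lo m).rootKey ≠ some x := by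
          rw [rootKey_zz, h]
          rw [h] at hnd'
          cases L₁ with
          | nil => simp at hnd' ⊢; tauto
          | cons z L₁ => simp at hnd' ⊢; intro hz; exact hnd'.1.2.2.1 hz
        rw [mem_path] at hx' hp'
        obtain ⟨h1, h2, h3⟩ := ih true lo L₁ p x L₃ h
        have hrot : rotUp x (zz false lo (m + 1)) =
            node (rotUp x (zz true lo m)) (lo + m) leaf := by
          simp only [zz, rotUp]
          rw [if_pos (by omega), if_neg hroot]
        rw [hrot]
        simp only [zz, depth]
        refine ⟨?_, ?_, ?_⟩
        · intro k hk1 hk2 hk3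
          have h1k := h1 k
          split_ifs <;> omega
        · rw [if_pos (by omega), if_pos (by omega)]
          omega
        · rw [if_pos (by omega), if_pos (by omega)]
          omega

theorem adjust_of_not {n : ℕ} {f : ℕ → ℕ} {x : ℕ} {t : Tree}
    (h : ¬ WPL n f (rotUp x t) < WPL n f t) : adjust n f x t = (t, 0) := by
  rw [adjust, if_neg h]

/-- No rotation when the accessed key is not heavier than its parent. -/
theorem adjust_zz {n : ℕ} {f : ℕ → ℕ} {L₁ L₃ : List ℕ} {p x : ℕ}
    (h : path true 1 n = L₁ ++ p :: x :: L₃) (hf : f x ≤ f p) :
    adjust n f x (zz true 1 n) = (zz true 1 n, 0) := by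
  apply adjust_of_not
  obtain ⟨h1, h2, h3⟩ := rot_depth n true 1 L₁ p x L₃ h
  have hx : x ∈ path true 1 n := by rw [h]; simp
  have hp : p ∈ path true 1 n := by rw [h]; simp
  have hnd := path_nodup n true 1
  have hpx : p ≠ x := by
    rw [h] at hnd
    rintro rfl
    simp [List.nodup_append] at hnd
  rw [mem_path] at hx hp
  have hx' : x ∈ Finset.Icc 1 n := by rw [Finset.mem_Icc]; omega
  have hp' : p ∈ Finset.Icc 1 n := by rw [Finset.mem_Icc]; omega
  have key : ∑ i ∈ Finset.Icc 1 n, (f i * (1 + depth i (zz true 1 n)) + if i = p then f p else 0)
      ≤ ∑ i ∈ Finset.Icc 1 n,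
        (f i * (1 + depth i (rotUp x (zz true 1 n))) + if i = x then f x else 0) := by
    apply Finset.sum_le_sum
    intro i hi
    rw [Finset.mem_Icc] at hi
    by_cases hix : i = x
    · subst hix
      rw [if_neg (Ne.symm hpx), if_pos rfl]
      have := Nat.mul_le_mul_left (f i) h2
      nlinarith [this]
    · rw [if_neg hix]
      by_cases hip : i = p
      · subst hip
        rw [if_pos rfl]
        have := Nat.mul_le_mul_left (f i) h3
        nlinarith [this]
      · rw [if_neg hip]
        have := Nat.mul_le_mul_left (f i) (h1 i (by omega) (by omega) hix)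
        nlinarith [this]
  rw [Finset.sum_add_distrib, Finset.sum_add_distrib, Finset.sum_ite_eq' , Finset.sum_ite_eq',
    if_pos hx', if_pos hp'] at key
  unfold WPL
  omega

/-- The run on a suffix of one round. -/
theorem run_suffix (n r : ℕ) : ∀ (L₂ L₁ : List ℕ) (s : State), path true 1 n = L₁ ++ L₂ →
    s.tree = zz true 1 n → (∀ k ∈ L₁, s.cnt k = r + 1) → (∀ k ∈ L₂, s.cnt k = r) →
    (L₂.foldl (step n) s).tree = zz true 1 n ∧
    (∀ k ∈ L₁ ++ L₂, (L₂.foldl (step n) s).cnt k = r + 1) ∧
    (L₂.foldl (step n) s).cost =
      s.cost + (L₂.map fun x => 1 + depth x (zz true 1 n)).sum := by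
  intro L₂
  induction L₂ with
  | nil =>
    intro L₁ s _ ht h1 _
    refine ⟨ht, ?_, by simp⟩
    intro k hk
    exact h1 k (by simpa using hk)
  | cons x L₂ ih =>
    intro L₁ s hL ht h1 h2
    have hnd := path_nodup n true 1
    have hadj : adjust n (Function.update s.cnt x (s.cnt x + 1)) x s.tree =
        (zz true 1 n, 0) := by
      rw [ht]
      rcases List.eq_nil_or_concat L₁ with hnil | ⟨L', p, hL'⟩
      · -- `x` is the root
        apply adjust_of_not
        rw [hnil] at hL
        cases n with
        | zero => simp [path] at hL
        | succ n =>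
          simp only [path, List.nil_append, List.cons.injEq] at hL
          obtain ⟨rfl, -⟩ := hL
          have : rotUp 1 (zz true 1 (n + 1)) = zz true 1 (n + 1) := by
            simp [zz, rotUp]
          rw [this]
          exact lt_irrefl _
      · have hL2 : path true 1 n = L' ++ p :: x :: L₂ := by
          rw [hL, hL']; simp
        apply adjust_zz hL2
        have hp : p ∈ L₁ := by rw [hL']; simp
        have hpx : p ≠ x := by
          rw [hL2] at hnd
          rintro rfl
          simp [List.nodup_append] at hnd
        rw [Function.update_self, Function.update_of_ne hpx, h1 p hp, h2 x (by simp)]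
    have hstep : step n s x = ⟨zz true 1 n, Function.update s.cnt x (s.cnt x + 1),
        s.cost + (1 + depth x (zz true 1 n))⟩ := by
      unfold step
      rw [hadj, ht]
      simp
    rw [List.foldl_cons, hstep]
    have hL3 : path true 1 n = (L₁ ++ [x]) ++ L₂ := by rw [hL]; simp
    rw [hL] at hnd
    have hnd2 : ∀ k ∈ L₁, k ≠ x := by
      intro k hk hkx
      subst hkx
      simp only [List.nodup_append, List.nodup_cons] at hnd
      exact hnd.2.2 k hk k (by simp) rfl
    have hnd3 : ∀ k ∈ L₂, k ≠ x := by
      intro k hk hkx
      subst hkx
      simp only [List.nodup_append, List.nodup_cons] at hnd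
      exact hnd.2.1.1 hk
    obtain ⟨g1, g2, g3⟩ := ih (L₁ ++ [x]) ⟨zz true 1 n, Function.update s.cnt x (s.cnt x + 1),
        s.cost + (1 + depth x (zz true 1 n))⟩ hL3 rfl (by
          intro k hk
          rcases List.mem_append.1 hk with hk | hk
          · show Function.update s.cnt x (s.cnt x + 1) k = r + 1
            rw [Function.update_of_ne (hnd2 k hk), h1 k hk]
          · have : k = x := by simpa using hk
            subst this
            show Function.update s.cnt k (s.cnt k + 1) k = r + 1
            rw [Function.update_self, h2 k (by simp)]) (by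
          intro k hk
          show Function.update s.cnt x (s.cnt x + 1) k = r
          rw [Function.update_of_ne (hnd3 k hk), h2 k (by simp [hk])])
    refine ⟨g1, ?_, ?_⟩
    · intro k hk
      exact g2 k (by simpa using hk)
    · rw [g3]
      simp only [List.map_cons, List.sum_cons]
      omega

/-- `r` rounds. -/
theorem run_rounds (n : ℕ) : ∀ r : ℕ,
    (((List.replicate r (path true 1 n)).flatten).foldl (step n)
      ⟨zz true 1 n, fun _ => 0, 0⟩).tree = zz true 1 n ∧
    (∀ k ∈ path true 1 n, (((List.replicate r (path true 1 n)).flatten).foldl (step n)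
      ⟨zz true 1 n, fun _ => 0, 0⟩).cnt k = r) ∧
    (((List.replicate r (path true 1 n)).flatten).foldl (step n)
      ⟨zz true 1 n, fun _ => 0, 0⟩).cost =
        r * ((path true 1 n).map fun x => 1 + depth x (zz true 1 n)).sum := by
  intro r
  induction r with
  | zero => simp
  | succ r ih =>
    obtain ⟨h1, h2, h3⟩ := ih
    rw [List.replicate_succ', List.flatten_append, List.foldl_append]
    have hfl : [path true 1 n].flatten = path true 1 n := by simp
    rw [hfl]
    obtain ⟨g1, g2, g3⟩ := run_suffix n r (path true 1 n) [] _ (by simp) h1 (by simp) h2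
    refine ⟨g1, ?_, ?_⟩
    · intro k hk
      exact g2 k (by simpa using hk)
    · rw [g3, h3]
      ring

/-! ### The balanced tree -/

/-- The perfectly balanced tree with `2 ^ h - 1` keys starting at `lo`. -/
def bal : ℕ → ℕ → Tree
  | _, 0 => leaf
  | lo, h + 1 => node (bal lo h) (lo + (2 ^ h - 1)) (bal (lo + 2 ^ h) h)

theorem bal_toList : ∀ (h lo : ℕ), (bal lo h).toList = List.range' lo (2 ^ h - 1) := by
  intro h
  induction h with
  | zero => intro lo; simp [bal, toList]
  | succ h ih =>
    intro lo
    have hpos : 0 < 2 ^ h := by positivity
    have e1 : (lo + (2 ^ h - 1)) :: List.range' (lo + 2 ^ h) (2 ^ h - 1) =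
        List.range' (lo + (2 ^ h - 1)) (2 ^ h - 1 + 1) := by
      rw [List.range'_succ]
      congr 2
      omega
    simp only [bal, toList, ih]
    rw [e1, List.range'_append_1]
    congr 1
    rw [pow_succ]
    omega

theorem bal_depth : ∀ (h lo x : ℕ), lo ≤ x → x < lo + (2 ^ h - 1) →
    1 + depth x (bal lo h) ≤ h := by
  intro h
  induction h with
  | zero => intro lo x h1 h2; simp at h2; omega
  | succ h ih =>
    intro lo x h1 h2
    have hpos : 0 < 2 ^ h := by positivity
    simp only [bal, depth]
    rw [pow_succ] at h2
    split_ifs with c1 c2
    · have := ih lo x h1 (by omega)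
      omega
    · have := ih (lo + 2 ^ h) x (by omega) (by omega)
      omega
    · omega

theorem opt_le (h : ℕ) (σ : List ℕ) (hσ : ∀ x ∈ σ, 1 ≤ x ∧ x ≤ 2 ^ h - 1) :
    optStatic (2 ^ h - 1) σ ≤ σ.length * h := by
  have h1 : optStatic (2 ^ h - 1) σ ≤ staticCost (bal 1 h) σ :=
    Nat.sInf_le ⟨bal 1 h, bal_toList h 1, rfl⟩
  refine h1.trans ?_
  unfold staticCost
  have h2 : ∀ y ∈ (σ.map fun x => 1 + depth x (bal 1 h)), y ≤ h := by
    intro y hy
    rw [List.mem_map] at hy
    obtain ⟨x, hx, rfl⟩ := hy
    have := hσ x hx
    exact bal_depth h 1 x this.1 (by omega)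
  have h3 := List.sum_le_card_nsmul _ h h2
  simpa using h3

/-- **Main result.** The WPL tree is not `O(1)`-static-competitive: for every constant `c` there
are `n` and an initial search tree `T₀` on `1, ..., n` such that for every additive constant `a`
some access sequence `σ` costs the WPL tree more than `c · OPT_st(σ) + a`. -/
theorem result : ∀ c : ℝ, ∃ (n : ℕ) (T₀ : Tree), IsBST n T₀ ∧
    ∀ a : ℝ, ∃ σ : List ℕ, (∀ x ∈ σ, 1 ≤ x ∧ x ≤ n) ∧
      (wplCost n T₀ σ : ℝ) > c * (optStatic n σ : ℝ) + a := by
  intro c
  obtain ⟨C, hC⟩ := exists_nat_ge c
  set k : ℕ := 4 * (C + 1) with hk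
  set h : ℕ := 2 * k with hh
  refine ⟨2 ^ h - 1, zz true 1 (2 ^ h - 1), zz_toList _ _ _, ?_⟩
  set n : ℕ := 2 ^ h - 1 with hn
  have hkpow : k < 2 ^ k := Nat.lt_two_pow_self
  have hpow : 2 ^ h = 2 ^ k * 2 ^ k := by rw [hh, two_mul, pow_add]
  have hbig : 2 * (C + 1) * h < 2 ^ h := by
    rw [hpow]
    have e1 : 2 * (C + 1) * h = k * k := by rw [hh, hk]; ring
    rw [e1]
    exact Nat.mul_lt_mul'' hkpow hkpow
  have hn1 : n + 1 = 2 ^ h := by
    have : 0 < 2 ^ h := by positivity
    omega
  have hh1 : 1 ≤ h := by omega
  have hnpos : 1 ≤ n := by nlinarith
  intro a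
  obtain ⟨r, hr⟩ := exists_nat_gt a
  refine ⟨(List.replicate r (path true 1 n)).flatten, ?_, ?_⟩
  · intro x hx
    rw [List.mem_flatten] at hx
    obtain ⟨l, hl, hx⟩ := hx
    rw [List.eq_of_mem_replicate hl, mem_path] at hx
    omega
  · have hval : ∀ x ∈ (List.replicate r (path true 1 n)).flatten, 1 ≤ x ∧ x ≤ n := by
      intro x hx
      rw [List.mem_flatten] at hx
      obtain ⟨l, hl, hx⟩ := hx
      rw [List.eq_of_mem_replicate hl, mem_path] at hx
      omega
    have hopt := opt_le h _ hval
    have hlen : ((List.replicate r (path true 1 n)).flatten).length = r * n := by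
      simp [path_length]
    rw [hlen] at hopt
    have hcost : wplCost n (zz true 1 n) (List.replicate r (path true 1 n)).flatten =
        r * ((path true 1 n).map fun x => 1 + depth x (zz true 1 n)).sum :=
      (run_rounds n r).2.2
    have hpc := path_cost n true 1
    -- `2 * cost = r * n * (n + 1)`
    have h2 : 2 * wplCost n (zz true 1 n) (List.replicate r (path true 1 n)).flatten =
        r * (n * (n + 1)) := by
      rw [hcost, ← hpc]; ring
    have h3 : r * (n * (2 * (C + 1) * h)) ≤
        2 * wplCost n (zz true 1 n) (List.replicate r (path true 1 n)).flatten := by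
      rw [h2]
      apply Nat.mul_le_mul_left
      apply Nat.mul_le_mul_left
      omega
    have h4 : C * (r * n * h) + r * n * h ≤
        wplCost n (zz true 1 n) (List.replicate r (path true 1 n)).flatten := by
      nlinarith [h3]
    have h5 : r ≤ r * n * h := by
      calc r = r * 1 * 1 := by ring
        _ ≤ r * n * h := by gcongr
    have h6 : C * optStatic n (List.replicate r (path true 1 n)).flatten + r ≤
        wplCost n (zz true 1 n) (List.replicate r (path true 1 n)).flatten := by
      calc C * optStatic n (List.replicate r (path true 1 n)).flatten + r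
          ≤ C * (r * n * h) + r * n * h := by gcongr
        _ ≤ _ := h4
    have h7 : (C : ℝ) * (optStatic n (List.replicate r (path true 1 n)).flatten : ℝ) + r ≤
        (wplCost n (zz true 1 n) (List.replicate r (path true 1 n)).flatten : ℝ) := by
      exact_mod_cast h6
    have h8 : c * (optStatic n (List.replicate r (path true 1 n)).flatten : ℝ) ≤
        (C : ℝ) * (optStatic n (List.replicate r (path true 1 n)).flatten : ℝ) :=
      mul_le_mul_of_nonneg_right hC (Nat.cast_nonneg _)
    show c * (optStatic n (List.replicate r (path true 1 n)).flatten : ℝ) + a <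
      (wplCost n (zz true 1 n) (List.replicate r (path true 1 n)).flatten : ℝ)
    linarith

end Pool.Agent.Results.MP_037a8f_lc.WPLNotStaticCompetitive
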